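import Pool.Agent.K4H72.Til.Spec

open Set

namespace Pool.Agent.K4H72.Til.H5

/-- T13 with the pieces T1-T5 as hypotheses -/
theorem deform_of
    (approx : ∀ (F : Set ℂ) (_ : F.Finite) (η : ℝ) (_ : 0 < η),
      ∃ M : ℕ, 0 < M ∧ ∃ φ : AddSubgroup.closure F →+ ℤ × ℤ,
        ∀ f (hf : f ∈ F), ‖(M : ℂ) * f - E (φ ⟨f, AddSubgroup.subset_closure hf⟩)‖ ≤ η)
    (choice : ∃ c : Set ℂ → ℂ, (∀ A : Set ℂ, A.Finite → A.Nonempty → c A ∈ A) ∧
      ∀ (A : Set ℂ) (t : ℂ), A.Finite → A.Nonempty → c ((fun z => z + t) '' A) = c A + t)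
    (E_sub : ∀ (v w : ℤ × ℤ), E (v - w) = E v - E w)
    (E_add : ∀ (v w : ℤ × ℤ), E (v + w) = E v + E w)
    (E_cases : ∀ (v : ℤ × ℤ), v = 0 ∨ (v ∈ six ∧ ‖E v‖ = 1) ∨ 3 ≤ ‖E v‖ ^ 2)
    (lip : ∀ (P : Set ℂ) (D : ℝ) (_ : 0 < D) (_ : ∀ x : ℂ, ∃ p ∈ P, ‖x - p‖ ≤ D / 4)
      (u : ℂ → ℂ) (η : ℝ) (_ : 0 ≤ η) (_ : ∀ p ∈ P, ∀ p' ∈ P, ‖p - p'‖ ≤ D → ‖u p - u p'‖ ≤ η),
      ∀ p ∈ P, ∀ p' ∈ P, ‖u p - u p'‖ ≤ η * (1 + 4 * ‖p - p'‖ / D))
    (mem_closure : ∀ (P : Set ℂ) (D : ℝ) (_ : 0 < D) (_ : ∀ x : ℂ, ∃ p ∈ P, ‖x - p‖ ≤ D / 4)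
      (G : AddSubgroup ℂ) (_ : ∀ p ∈ P, ∀ p' ∈ P, ‖p - p'‖ ≤ D → p - p' ∈ G),
      ∀ p ∈ P, ∀ p' ∈ P, p - p' ∈ G)
    (near : ∀ (P : Set ℂ) (D : ℝ) (_ : 0 < D) (_ : ∀ x : ℂ, ∃ p ∈ P, ‖x - p‖ ≤ D / 4)
      (Φ : ℂ → ℤ × ℤ) (M : ℝ) (_ : 1 ≤ M)
      (_ : ∀ p ∈ P, ∀ p' ∈ P, ‖p - p'‖ ≤ D → ‖(M : ℂ) * (p - p') - E (Φ p - Φ p')‖ ≤ D / 8),
      ∀ v : ℤ × ℤ, ∃ p ∈ P, ‖E (Φ p - v)‖ ≤ M * D)
    (P : Set ℂ) (D : ℝ) (hD : 0 < D) (hdense : ∀ x : ℂ, ∃ p ∈ P, ‖x - p‖ ≤ D / 4)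
    (hfin : {d : ℂ | ∃ p ∈ P, ∃ p' ∈ P, d = p - p' ∧ ‖d‖ ≤ 8 * D}.Finite) :
    ∃ (h : ℝ) (g : ℤ × ℤ → ℂ), Def1 h g ∧ ∀ R2 : ℝ, ∃ R : ℝ, ∀ x y : ℂ,
      (∀ p : ℂ, ‖p‖ < R → (x + p ∈ P ↔ y + p ∈ P)) →
        ∃ τ : ℤ × ℤ, ∀ v, ‖g v - x‖ ≤ R2 → g (v + τ) = g v + (y - x) := by
  classical
  obtain ⟨p0, hp0, _⟩ := hdense 0
  set F : Set ℂ := {d : ℂ | ∃ p ∈ P, ∃ p' ∈ P, d = p - p' ∧ ‖d‖ ≤ 8 * D} with hF
  have hc1 : 0 < 25 + 8 / D := by positivity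
  obtain ⟨η, hη, hη1, hη2⟩ : ∃ η : ℝ, 0 < η ∧ η ≤ D / 8 ∧ η * (25 + 8 / D) ≤ 1 / 20 := by
    refine ⟨min (D / 8) (1 / 20 / (25 + 8 / D)), lt_min (by positivity) (by positivity), min_le_left _ _, ?_⟩
    calc min (D / 8) (1 / 20 / (25 + 8 / D)) * (25 + 8 / D) ≤ (1 / 20 / (25 + 8 / D)) * (25 + 8 / D) :=
          mul_le_mul_of_nonneg_right (min_le_right _ _) hc1.le
      _ = 1 / 20 := by field_simp
  obtain ⟨M, hM0, φ, hφ⟩ := approx F hfin η hη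
  have hM : (1 : ℝ) ≤ M := by exact_mod_cast hM0
  have hMC : (M : ℂ) ≠ 0 := by exact_mod_cast hM0.ne'
  have hmem : ∀ p ∈ P, ∀ p' ∈ P, p - p' ∈ AddSubgroup.closure F :=
    mem_closure P D hD hdense (AddSubgroup.closure F) (fun p hp p' hp' hd =>
      AddSubgroup.subset_closure ⟨p, hp, p', hp', rfl, by linarith⟩)
  obtain ⟨Φ, hΦ⟩ : ∃ Φ : ℂ → ℤ × ℤ, ∀ p ∈ P, ∀ p' ∈ P, ∀ hd : p - p' ∈ AddSubgroup.closure F, Φ p - Φ p' = φ ⟨p - p', hd⟩ := by
    refine ⟨fun p => if h : p - p0 ∈ AddSubgroup.closure F then φ ⟨p - p0, h⟩ else 0, fun p hp p' hp' hd => ?_⟩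
    simp only [dif_pos (hmem p hp p0 hp0), dif_pos (hmem p' hp' p0 hp0)]
    rw [← map_sub]
    congr 1
    apply Subtype.ext
    simp
  have hΦ2 : ∀ p ∈ P, ∀ p' ∈ P, ∀ q ∈ P, ∀ q' ∈ P, p - p' = q - q' → Φ p - Φ p' = Φ q - Φ q' := by
    intro p hp p' hp' q hq q' hq' he
    rw [hΦ p hp p' hp' (hmem p hp p' hp'), hΦ q hq q' hq' (hmem q hq q' hq')]
    congr 1
    exact Subtype.ext he
  have hstep : ∀ p ∈ P, ∀ p' ∈ P, ‖p - p'‖ ≤ 8 * D → ‖(M : ℂ) * (p - p') - E (Φ p - Φ p')‖ ≤ η := by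
    intro p hp p' hp' hd
    have h1 : p - p' ∈ F := ⟨p, hp, p', hp', rfl, hd⟩
    have h2 := hφ (p - p') h1
    rw [hΦ p hp p' hp' (AddSubgroup.subset_closure h1)]
    exact h2
  set u : ℂ → ℂ := fun p => (M : ℂ) * p - E (Φ p) with hu
  have hud : ∀ p p', u p - u p' = (M : ℂ) * (p - p') - E (Φ p - Φ p') := by
    intro p p'
    simp only [hu, E_sub]
    ring
  have hlip : ∀ p ∈ P, ∀ p' ∈ P, ‖u p - u p'‖ ≤ η * (1 + 4 * ‖p - p'‖ / D) := by
    refine lip P D hD hdense u η hη.le (fun p hp p' hp' hd => ?_)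
    rw [hud]
    exact hstep p hp p' hp' (by linarith)
  -- the neighbourhoods
  set N : ℤ × ℤ → Set ℂ := fun v => {p ∈ P | ‖E (Φ p - v)‖ ≤ M * D} with hN
  have hne : ∀ v, (N v).Nonempty := by
    intro v
    obtain ⟨p, hp, hpv⟩ := near P D hD hdense Φ M hM (fun p hp p' hp' hd => by
      have := hstep p hp p' hp' (by linarith)
      push_cast
      linarith) v
    exact ⟨p, hp, hpv⟩
  -- distance estimate
  have hdist : ∀ v w : ℤ × ℤ, ∀ p ∈ N v, ∀ p' ∈ N w, ‖p - p'‖ ≤ 5 * D + 2 * ‖E (v - w)‖ := by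
    intro v w p hp p' hp'
    have h1 : (M : ℂ) * (p - p') = (u p - u p') + (E (Φ p - v) - E (Φ p' - w) + E (v - w)) := by
      rw [hud]
      simp only [E_sub]
      ring
    have h2 : (M : ℝ) * ‖p - p'‖ ≤ η * (1 + 4 * ‖p - p'‖ / D) + (M * D + M * D + ‖E (v - w)‖) := by
      calc (M : ℝ) * ‖p - p'‖ = ‖(M : ℂ) * (p - p')‖ := by rw [norm_mul, Complex.norm_natCast]
        _ ≤ _ := by
          rw [h1]
          refine (norm_add_le _ _).trans (add_le_add (hlip p hp.1 p' hp'.1) ?_)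
          refine (norm_add_le _ _).trans (add_le_add ?_ le_rfl)
          exact (norm_sub_le _ _).trans (add_le_add hp.2 hp'.2)
    have h3 : η * (4 * ‖p - p'‖ / D) ≤ ‖p - p'‖ / 2 := by
      have h4 : η * (4 * ‖p - p'‖ / D) ≤ (D / 8) * (4 * ‖p - p'‖ / D) :=
        mul_le_mul_of_nonneg_right hη1 (by positivity)
      have h5 : (D / 8) * (4 * ‖p - p'‖ / D) = ‖p - p'‖ / 2 := by field_simp; ring
      linarith
    have h6 : 0 ≤ ‖p - p'‖ := norm_nonneg _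
    have h7 : 0 ≤ ‖E (v - w)‖ := norm_nonneg _
    -- M x ≤ η + x/2 + 2 M D + e
    have h8 : (M : ℝ) * ‖p - p'‖ ≤ D / 8 + ‖p - p'‖ / 2 + 2 * M * D + ‖E (v - w)‖ := by nlinarith
    by_contra hcon
    push Not at hcon
    nlinarith
  have hNfin : ∀ v, (N v).Finite := by
    intro v
    obtain ⟨q, hq⟩ := hne v
    refine (hfin.image (fun d => q + d)).subset (fun p hp => ?_)
    refine ⟨p - q, ⟨p, hp.1, q, hq.1, rfl, ?_⟩, by simp⟩
    have := hdist v v p hp q hq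
    have h0 : E (v - v) = 0 := by rw [E_sub]; ring
    rw [h0, norm_zero] at this
    linarith
  obtain ⟨c, hc1', hc2⟩ := choice
  have hcu : ∀ v, ∃ p ∈ N v, c (u '' N v) = u p := by
    intro v
    obtain ⟨p, hp, hpe⟩ := hc1' (u '' N v) ((hNfin v).image u) ((hne v).image u)
    exact ⟨p, hp, hpe.symm⟩
  set g : ℤ × ℤ → ℂ := fun v => (E v + c (u '' N v)) / M with hg
  refine ⟨1 / M, g, ⟨by positivity, ?_⟩, ?_⟩
  · intro v w
    rcases eq_or_ne v w with rfl | hvw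
    · have h0 : E 0 = 0 := by simpa using E_sub 0 0
      simp [h0]
    obtain ⟨p, hp, hpe⟩ := hcu v
    obtain ⟨p', hp', hpe'⟩ := hcu w
    have h1 : g v - g w - ((1 / M : ℝ) : ℂ) * E (v - w) = (u p - u p') / M := by
      simp only [hg, hpe, hpe', E_sub]
      push_cast
      field_simp
      ring
    rw [h1, norm_div, Complex.norm_natCast]
    have hE1 : 1 ≤ ‖E (v - w)‖ := by
      rcases E_cases (v - w) with h | h | h
      · exact absurd (sub_eq_zero.mp h) hvw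
      · exact h.2.ge
      · nlinarith [norm_nonneg (E (v - w))]
    have h2 := hlip p hp.1 p' hp'.1
    have h3 := hdist v w p hp p' hp'
    have h4 : η * (1 + 4 * ‖p - p'‖ / D) ≤ 1 / 20 * ‖E (v - w)‖ := by
      have h5 : 1 + 4 * ‖p - p'‖ / D ≤ (25 + 8 / D) * ‖E (v - w)‖ := by
        have h6 : 4 * ‖p - p'‖ / D ≤ 4 * (5 * D + 2 * ‖E (v - w)‖) / D := by gcongr
        have h7 : 4 * (5 * D + 2 * ‖E (v - w)‖) / D = 20 + 8 / D * ‖E (v - w)‖ := by field_simp; ring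
        nlinarith
      calc η * (1 + 4 * ‖p - p'‖ / D) ≤ η * ((25 + 8 / D) * ‖E (v - w)‖) := mul_le_mul_of_nonneg_left h5 hη.le
        _ = (η * (25 + 8 / D)) * ‖E (v - w)‖ := by ring
        _ ≤ 1 / 20 * ‖E (v - w)‖ := mul_le_mul_of_nonneg_right hη2 (by linarith)
    have hM' : (0 : ℝ) < M := by linarith
    rw [div_le_iff₀ hM']
    have h8 : 1 / 20 * (1 / (M : ℝ)) * ‖E (v - w)‖ * M = 1 / 20 * ‖E (v - w)‖ := by field_simp
    rw [h8]
    linarith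
  · intro R2
    refine ⟨|R2| + 20 * D, fun x y hxy => ?_⟩
    have hR : 0 ≤ |R2| := abs_nonneg _
    obtain ⟨p1, hp1, hp1x⟩ := hdense x
    have hp1' : p1 - x + y ∈ P := by
      have h1 := (hxy (p1 - x) (by rw [norm_sub_rev]; linarith)).mp (by simpa using hp1)
      have h2 : y + (p1 - x) = p1 - x + y := by ring
      rwa [h2] at h1
    refine ⟨Φ (p1 - x + y) - Φ p1, fun v hv => ?_⟩
    set τ := Φ (p1 - x + y) - Φ p1 with hτ
    have hvR : ‖g v - x‖ ≤ |R2| := hv.trans (le_abs_self _)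
    have hE0 : E (v - v) = 0 := by rw [E_sub]; ring
    -- transport of Φ
    have htr : ∀ p ∈ P, p - x + y ∈ P → Φ (p - x + y) = Φ p + τ := by
      intro p hp hp'
      have h1 := hΦ2 (p - x + y) hp' (p1 - x + y) hp1' p hp p1 hp1 (by ring)
      rw [hτ]
      have h2 : Φ (p - x + y) = Φ p - Φ p1 + Φ (p1 - x + y) := by
        rw [← h1]; abel
      rw [h2]
      abel
    -- points of N v are close to x
    have hNx : ∀ p ∈ N v, ‖p - x‖ ≤ |R2| + 6 * D := by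
      intro p hp
      obtain ⟨q, hq, hqe⟩ := hcu v
      have h1 : g v - q = - (E (Φ q - v)) / M := by
        have h1' : g v = (E v + c (u '' N v)) / M := rfl
        rw [h1', hqe, E_sub]
        simp only [hu]
        field_simp
        ring
      have h2 : ‖g v - q‖ ≤ D := by
        rw [h1, norm_div, norm_neg, Complex.norm_natCast, div_le_iff₀ (by linarith)]
        have := hq.2
        linarith
      have h3 := hdist v v p hp q hq
      rw [hE0, norm_zero] at h3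
      calc ‖p - x‖ = ‖(p - q) - (g v - q) + (g v - x)‖ := by congr 1; ring
        _ ≤ ‖(p - q) - (g v - q)‖ + ‖g v - x‖ := norm_add_le _ _
        _ ≤ ‖p - q‖ + ‖g v - q‖ + ‖g v - x‖ := by gcongr; exact norm_sub_le _ _
        _ ≤ _ := by linarith
    have hfw : ∀ p ∈ N v, p - x + y ∈ N (v + τ) := by
      intro p hp
      have h1 : p - x + y ∈ P := by
        have h1 := (hxy (p - x) (by linarith [hNx p hp])).mp (by simpa using hp.1)
        have h2 : y + (p - x) = p - x + y := by ring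
        rwa [h2] at h1
      refine ⟨h1, ?_⟩
      rw [htr p hp.1 h1]
      have h2 : Φ p + τ - (v + τ) = Φ p - v := by abel
      rw [h2]
      exact hp.2
    have himg : N (v + τ) = (fun p => p - x + y) '' N v := by
      apply Set.Subset.antisymm
      · intro p' hp'
        obtain ⟨q, hq⟩ := hne v
        have hq' := hfw q hq
        have h3 := hdist (v + τ) (v + τ) p' hp' _ hq'
        have hE0' : E ((v + τ) - (v + τ)) = 0 := by rw [E_sub]; ring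
        rw [hE0', norm_zero] at h3
        have h4 : ‖p' - y‖ ≤ 5 * D + (|R2| + 6 * D) := by
          calc ‖p' - y‖ = ‖(p' - (q - x + y)) + (q - x)‖ := by congr 1; ring
            _ ≤ _ := norm_add_le _ _
            _ ≤ _ := by linarith [hNx q hq]
        have h5 : x + (p' - y) ∈ P := (hxy (p' - y) (by linarith)).mpr (by simpa using hp'.1)
        have h6 : x + (p' - y) - x + y = p' := by ring
        refine ⟨x + (p' - y), ⟨h5, ?_⟩, h6⟩
        have h7 := htr _ h5 (by rw [h6]; exact hp'.1)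
        rw [h6] at h7
        have h8 := hp'.2
        rw [h7] at h8
        have h9 : Φ (x + (p' - y)) + τ - (v + τ) = Φ (x + (p' - y)) - v := by abel
        rwa [h9] at h8
      · rintro _ ⟨p, hp, rfl⟩
        exact hfw p hp
    have huimg : u '' N (v + τ) = (fun z => z + ((M : ℂ) * (y - x) - E τ)) '' (u '' N v) := by
      rw [himg, Set.image_image, Set.image_image]
      apply Set.image_congr
      intro p hp
      have h1 := (hfw p hp).1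
      simp only [hu]
      rw [htr p hp.1 h1, E_add]
      ring
    simp only [hg]
    rw [huimg, hc2 _ _ ((hNfin v).image u) ((hne v).image u), E_add]
    field_simp
    ring

end Pool.Agent.K4H72.Til.H5
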