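import Pool.Agent.K4H72.Til.Spec

open Set

namespace Pool.Agent.K4H72.Til

private theorem nE_sub (v w : ℤ × ℤ) : E (v - w) = E v - E w := by
  simp only [E, Prod.fst_sub, Prod.snd_sub, Int.cast_sub]
  ring

private theorem nE_re (v : ℤ × ℤ) : (E v).re = v.1 + v.2 / 2 := by
  simp [E, ζ, Complex.add_re, Complex.mul_re]
  ring

private theorem nE_im (v : ℤ × ℤ) : (E v).im = v.2 * (Real.sqrt 3 / 2) := by
  simp [E, ζ, Complex.add_im, Complex.mul_im]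

private theorem nnorm_E_sq (v : ℤ × ℤ) : ‖E v‖ ^ 2 = (v.1 : ℝ) ^ 2 + v.1 * v.2 + (v.2 : ℝ) ^ 2 := by
  rw [Complex.sq_norm, Complex.normSq_apply, nE_re, nE_im]
  have h3 : Real.sqrt 3 * Real.sqrt 3 = 3 := Real.mul_self_sqrt (by norm_num)
  nlinarith [h3]

/-- T5 -/
theorem near (P : Set ℂ) (D : ℝ) (hD : 0 < D) (hdense : ∀ x : ℂ, ∃ p ∈ P, ‖x - p‖ ≤ D / 4)
    (Φ : ℂ → ℤ × ℤ) (M : ℝ) (hM : 1 ≤ M)
    (hΦ : ∀ p ∈ P, ∀ p' ∈ P, ‖p - p'‖ ≤ D → ‖(M : ℂ) * (p - p') - E (Φ p - Φ p')‖ ≤ D / 8) :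
    ∀ v : ℤ × ℤ, ∃ p ∈ P, ‖E (Φ p - v)‖ ≤ M * D := by
  intro v
  obtain ⟨p0, hp0, _⟩ := hdense 0
  have hN : ∀ w : ℤ × ℤ, ∃ n : ℕ, ‖E w‖ ^ 2 = (n : ℝ) := by
    intro w
    refine ⟨(w.1 ^ 2 + w.1 * w.2 + w.2 ^ 2).toNat, ?_⟩
    have hpos : 0 ≤ w.1 ^ 2 + w.1 * w.2 + w.2 ^ 2 := by nlinarith [sq_nonneg (w.1 + w.2), sq_nonneg w.1, sq_nonneg w.2]
    rw [nnorm_E_sq]
    have : ((w.1 ^ 2 + w.1 * w.2 + w.2 ^ 2).toNat : ℤ) = w.1 ^ 2 + w.1 * w.2 + w.2 ^ 2 := Int.toNat_of_nonneg hpos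
    have h2 : (((w.1 ^ 2 + w.1 * w.2 + w.2 ^ 2).toNat : ℤ) : ℝ) = ((w.1 ^ 2 + w.1 * w.2 + w.2 ^ 2 : ℤ) : ℝ) := by rw [this]
    push_cast at h2
    linarith [h2]
  choose N hN using hN
  obtain ⟨p, hp, hmin⟩ : ∃ p ∈ P, ∀ q ∈ P, N (Φ p - v) ≤ N (Φ q - v) := by
    have hS : ((fun p => N (Φ p - v)) '' P).Nonempty := ⟨_, p0, hp0, rfl⟩
    obtain ⟨p, hp, hpe⟩ := Nat.sInf_mem hS
    refine ⟨p, hp, fun q hq => ?_⟩
    simp only at hpe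
    rw [hpe]
    exact Nat.sInf_le ⟨q, hq, rfl⟩
  refine ⟨p, hp, ?_⟩
  by_contra hcon
  push Not at hcon
  set e : ℂ := E (v - Φ p) with he
  have hpe : E (Φ p - v) = -e := by rw [he, nE_sub, nE_sub]; ring
  rw [hpe, norm_neg] at hcon
  have hMD : 0 < M * D := by positivity
  have hr : 0 < ‖e‖ := lt_trans hMD hcon
  have hr' : (‖e‖ : ℂ) ≠ 0 := by exact_mod_cast hr.ne'
  obtain ⟨p', hp', hx⟩ := hdense (p + ((D / 2 / ‖e‖ : ℝ) : ℂ) * e)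
  have hstep : ‖((D / 2 / ‖e‖ : ℝ) : ℂ) * e‖ = D / 2 := by
    rw [norm_mul, Complex.norm_real, Real.norm_of_nonneg (by positivity)]
    field_simp
  have hd : ‖p' - p‖ ≤ D := by
    have h1 : p' - p = ((D / 2 / ‖e‖ : ℝ) : ℂ) * e - ((p + ((D / 2 / ‖e‖ : ℝ) : ℂ) * e) - p') := by ring
    rw [h1]
    refine (norm_sub_le _ _).trans ?_
    rw [hstep]
    linarith
  have h2 := hΦ p' hp' p hp hd
  have h3 : E (v - Φ p') = ((1 - M * (D / 2 / ‖e‖) : ℝ) : ℂ) * e + (M : ℂ) * ((p + ((D / 2 / ‖e‖ : ℝ) : ℂ) * e) - p')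
      + ((M : ℂ) * (p' - p) - E (Φ p' - Φ p)) := by
    rw [he, nE_sub, nE_sub, nE_sub]
    push_cast
    ring
  have h4 : ‖E (v - Φ p')‖ ≤ (‖e‖ - M * D / 2) + M * (D / 4) + D / 8 := by
    rw [h3]
    refine (norm_add_le _ _).trans (add_le_add ((norm_add_le _ _).trans (add_le_add ?_ ?_)) h2)
    · rw [norm_mul, Complex.norm_real, Real.norm_of_nonneg]
      · apply le_of_eq
        field_simp
      · have : M * (D / 2 / ‖e‖) = (M * D / 2) / ‖e‖ := by ring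
        rw [this, sub_nonneg, div_le_one hr]
        linarith
    · rw [norm_mul, Complex.norm_real, Real.norm_of_nonneg (by linarith)]
      exact mul_le_mul_of_nonneg_left hx (by linarith)
  have h5 : ‖E (v - Φ p')‖ < ‖e‖ := by nlinarith
  have h6 : ‖E (Φ p' - v)‖ ^ 2 < ‖E (Φ p - v)‖ ^ 2 := by
    have h7 : ‖E (Φ p' - v)‖ = ‖E (v - Φ p')‖ := by
      rw [nE_sub, nE_sub, norm_sub_rev]
    rw [h7, hpe, norm_neg]
    exact pow_lt_pow_left₀ h5 (norm_nonneg _) (by norm_num)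
  rw [hN, hN] at h6
  have h8 : N (Φ p' - v) < N (Φ p - v) := by exact_mod_cast h6
  exact absurd (hmin p' hp') (not_le.mpr h8)

end Pool.Agent.K4H72.Til
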